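import Pool.Agent.Lib.MP_c04f8f_nt.Defs
import Pool.Agent.Lib.MP_c04f8f_nt.Race

set_option autoImplicit false

open Pool.Agent.Lib.MP_c04f8f_nt

namespace Pool.Agent.Retired.MP_c04f8f_nt.RealZeroCriterion

/-- If `a` does not lead a coprime class `a₁ ≢ a` modulo `b` by `n ^ θ` infinitely often
(`θ < 1/2`), the largest real point of `[1/2, 1)` with non-zero weight has positive weight. -/
theorem result (b : ℕ) [NeZero b] (a : ℕ) (ha : Nat.Coprime a b) (θ : ℝ) (hθ : θ < 1 / 2)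
    (a₁ : ℕ) (ha₁ : Nat.Coprime a₁ b) (hne : ¬ a₁ ≡ a [MOD b]) (h : ¬ Leads b a a₁ θ) :
    ∃ β ∈ Set.Ico (1 / 2 : ℝ) 1, 0 < realZeroWeight b a a₁ β ∧
      ∀ β' ∈ Set.Ioo β 1, realZeroWeight b a a₁ β' = 0 :=
  criterion ha ha₁ hne hθ h

end Pool.Agent.Retired.MP_c04f8f_nt.RealZeroCriterion
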